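import Pool.Agent.H86.WSG.Digits
import Pool.Agent.H86.WSR.Iso

set_option autoImplicit false

/-!
# In every large genus some Weierstrass semigroup has a locus of codimension close to three times the genus

For every `g ≥ 115` there is a numerical semigroup `S` of genus `g` which is the Weierstrass semigroup of
a pointed curve, over every algebraically closed field of characteristic zero, such that the pointed
curves with Weierstrass semigroup `S` depend on at most `3249 (log₂ g + 1) ^ 57` parameters. The moduli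
space of pointed curves of genus `g` has dimension `3 g - 2`. So, for every `c < 3` and every large genus
`g`, every component of the locus of `S` has codimension greater than `c g`.

The semigroups are generated by `2 ^ n` and the numbers `2 ^ i D (n - i)`, `i < n`, with
`D m = ν_0 + 2 ν_1 + ⋯ + 2 ^ (m - 1) ν_(m-1)`, `ν_0` odd and `1 ≤ ν_l ≤ 14`. The curves are cyclic covers
`w ^ (2 ^ n) = ∏ P_l ^ (2 ^ l)` of the line, with squarefree coprime `P_l` of degree `ν_l`.
-/

namespace Pool.Agent.Results.MP_dde86c_ag.CodimAllLargeGenera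

open Pool.Agent.H86.WSR (IsFunctionField IsPoint regularAway HasPoleOfOrder weierstrassSemigroup
  DependOnAtMost iso_of_regular_iso HasPoleOfOrder.notMem)

/-- The pointed curves `(C, P)` and `(C', P')` are isomorphic: there is an isomorphism over `k` of the
function fields that carries the local ring at `P` to the local ring at `P'`. -/
def IsoPointed (k : Type) {K K' : Type} [Field k] [Field K] [Field K'] [Algebra k K] [Algebra k K']
    (P : ValuationSubring K) (P' : ValuationSubring K') : Prop :=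
  ∃ φ : K ≃ₐ[k] K', ∀ f : K, f ∈ P ↔ φ f ∈ P'

lemma log_beats (c : ℝ) (hc : c < 3) : ∃ g₀ : ℕ, ∀ g : ℕ, g₀ ≤ g →
    c * g < (3 * g - 2) - ((3249 * (Nat.log 2 g + 1) ^ 57 : ℕ) : ℝ) := by
  have h1 : Filter.Tendsto (fun n : ℕ => (n : ℝ) ^ 57 / 2 ^ n) Filter.atTop (nhds 0) :=
    tendsto_pow_const_div_const_pow_of_one_lt 57 (by norm_num)
  have h2 := (h1.comp (Filter.tendsto_add_atTop_nat 1)).eventually_lt_const
    (show 0 < (3 - c) / 6502 by linarith [show (0:ℝ) < 3 - c by linarith])
  obtain ⟨N, hN⟩ := Filter.eventually_atTop.1 h2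
  refine ⟨2 ^ N, fun g hg => ?_⟩
  set n := Nat.log 2 g with hn
  have hg0 : g ≠ 0 := by
    have : 0 < 2 ^ N := by positivity
    omega
  have hNn : N ≤ n := by
    rw [hn]; exact (Nat.le_log_iff_pow_le (by norm_num) hg0).2 hg
  have hng : 2 ^ n ≤ g := Nat.pow_log_le_self 2 hg0
  have hng' : (2 : ℝ) ^ n ≤ g := by exact_mod_cast hng
  have h3 := hN n hNn
  simp only [Function.comp_apply] at h3
  have hpos : (0 : ℝ) < 2 ^ (n + 1) := by positivity
  rw [div_lt_iff₀ hpos] at h3
  have e : (3 - c) / 6502 * (2 : ℝ) ^ (n + 1) = (3 - c) * 2 ^ n / 3251 := by rw [pow_succ]; ring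
  rw [e, lt_div_iff₀ (by norm_num)] at h3
  have h4 : (1 : ℝ) ≤ ((n + 1 : ℕ) : ℝ) ^ 57 := by
    apply one_le_pow₀
    have : 1 ≤ n + 1 := by omega
    exact_mod_cast this
  have h5 : (3 - c) * 2 ^ n ≤ (3 - c) * g := mul_le_mul_of_nonneg_left hng' (by linarith)
  push_cast at h3 h4 ⊢
  nlinarith

/-- Let `k` be an algebraically closed field of characteristic zero. For every `g ≥ 115` there is a
numerical semigroup `S` of genus `g` (first two clauses) such that: some pointed curve has Weierstrass
semigroup `S` (third clause); the affine curves `C ∖ {P}`, for all pointed curves `(C, P)` with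
Weierstrass semigroup `S`, are fibres of one family over the affine space of dimension
`3249 (log₂ g + 1) ^ 57`, and the pointed curve is determined up to isomorphism by the coordinate ring
of `C ∖ {P}` (fourth and fifth clause). For every real `c < 3` one has
`c g < (3 g - 2) - 3249 (log₂ g + 1) ^ 57` for all large `g` (last part). -/
theorem result (k : Type) [Field k] [IsAlgClosed k] [CharZero k] :
    (∀ g : ℕ, 115 ≤ g → ∃ S : AddSubmonoid ℕ,
      ((S : Set ℕ)ᶜ).Finite ∧
      ((S : Set ℕ)ᶜ).ncard = g ∧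
      (∃ (K : Type) (_ : Field K) (_ : Algebra k K), IsFunctionField k K ∧
        ∃ P : ValuationSubring K, IsPoint k P ∧ weierstrassSemigroup k P = (S : Set ℕ)) ∧
      DependOnAtMost k (S : Set ℕ) (3249 * (Nat.log 2 g + 1) ^ 57) ∧
      (∀ (K K' : Type) [Field K] [Field K'] [Algebra k K] [Algebra k K'],
        IsFunctionField k K → IsFunctionField k K' →
        ∀ (P : ValuationSubring K) (P' : ValuationSubring K'), IsPoint k P → IsPoint k P' →
          weierstrassSemigroup k P = (S : Set ℕ) →
          Nonempty (regularAway k P ≃ₐ[k] regularAway k P') → IsoPointed k P P')) ∧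
    (∀ c : ℝ, c < 3 → ∃ g₀ : ℕ, ∀ g : ℕ, g₀ ≤ g →
      c * g < (3 * g - 2) - ((3249 * (Nat.log 2 g + 1) ^ 57 : ℕ) : ℝ)) := by
  refine ⟨fun g hg => ?_, log_beats⟩
  obtain ⟨n, ν, hn4, hng, h0, hν, hfin, hcard⟩ := Pool.Agent.H86.WSG.exists_nu g hg
  refine ⟨Pool.Agent.H86.WSG.Sg ν n, hfin, hcard,
    Pool.Agent.H86.WSG.exists_pointed_curve k h0 (by omega), ?_, ?_⟩
  · refine Pool.Agent.H86.WSG.dependOnAtMost h0 k n _ ?_
    have h1 : n ≤ Nat.log 2 g := (Nat.le_log_iff_pow_le (by norm_num) (by omega)).2 hng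
    calc ∑ i : Fin n, (Pool.Agent.H86.WSG.PI ν i).card
        ≤ ∑ _i : Fin n, (4 * 14 + 1) * ((4 * 14 + 1) * (n + 1) ^ (4 * 14)) :=
          Finset.sum_le_sum fun i _ => Pool.Agent.H86.WSG.card_PI_le h0 hν i
      _ = n * ((4 * 14 + 1) * ((4 * 14 + 1) * (n + 1) ^ (4 * 14))) := by
          rw [Finset.sum_const, Finset.card_univ, Fintype.card_fin, smul_eq_mul]
      _ ≤ (n + 1) * ((4 * 14 + 1) * ((4 * 14 + 1) * (n + 1) ^ (4 * 14))) :=
          Nat.mul_le_mul_right _ (Nat.le_succ n)
      _ = 3249 * (n + 1) ^ 57 := by ring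
      _ ≤ 3249 * (Nat.log 2 g + 1) ^ 57 :=
          Nat.mul_le_mul_left _ (Nat.pow_le_pow_left (by omega) 57)
  · intro K K' _ _ _ _ hK hK' P P' hP hP' hS ⟨ψ⟩
    have h35 : (2 ^ n : ℕ) ∈ weierstrassSemigroup k P := by
      rw [hS]
      exact AddSubmonoid.subset_closure ⟨0, Pool.Agent.H86.WSG.gw_zero ν n⟩
    obtain ⟨x, hx, hx35⟩ := h35
    exact iso_of_regular_iso hK hK' hP hP' hx (hx35.notMem (by positivity)) ψ

end Pool.Agent.Results.MP_dde86c_ag.CodimAllLargeGenera
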